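import Pool.Agent.helper92.ISO.SpecG

/-!
# Row TWO of project ISO
-/

set_option autoImplicit false

open Filter Topology

namespace Pool.Agent.ISO

open Pool.Agent.PB

lemma TWO_hit_iff {R : ℕ} (T K : Finset (Fin R)) : Hit 1 T K ↔ (T ∩ K).card = 1 := by
  unfold Hit
  omega

lemma TWO_count {R : ℕ} (T : Finset (Fin R)) :
    (Finset.univ.filter fun K : Finset (Fin R) => (T ∩ K).card = 1 ∧ K.card = 2).card ≤ T.card * (R - T.card) := by
  have hsub : (Finset.univ.filter fun K : Finset (Fin R) => (T ∩ K).card = 1 ∧ K.card = 2) ⊆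
      (T ×ˢ Tᶜ).image fun p : Fin R × Fin R => ({p.1, p.2} : Finset (Fin R)) := by
    intro K hK
    simp only [Finset.mem_filter, Finset.mem_univ, true_and] at hK
    obtain ⟨h1, h2⟩ := hK
    obtain ⟨a, ha⟩ := Finset.card_eq_one.mp h1
    have haT : a ∈ T ∩ K := by rw [ha]; exact Finset.mem_singleton_self a
    rw [Finset.mem_inter] at haT
    have h3 : (K.erase a).card = 1 := by rw [Finset.card_erase_of_mem haT.2, h2]
    obtain ⟨b, hb⟩ := Finset.card_eq_one.mp h3
    have hbK : b ∈ K.erase a := by rw [hb]; exact Finset.mem_singleton_self b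
    rw [Finset.mem_erase] at hbK
    have hbT : b ∉ T := by
      intro hbT
      have : b ∈ T ∩ K := Finset.mem_inter.mpr ⟨hbT, hbK.2⟩
      rw [ha, Finset.mem_singleton] at this
      exact hbK.1 this
    rw [Finset.mem_image]
    refine ⟨(a, b), ?_, ?_⟩
    · rw [Finset.mem_product]
      exact ⟨haT.1, Finset.mem_compl.mpr hbT⟩
    · show ({a, b} : Finset (Fin R)) = K
      rw [← hb]
      exact Finset.insert_erase haT.2
  calc _ ≤ ((T ×ˢ Tᶜ).image fun p : Fin R × Fin R => ({p.1, p.2} : Finset (Fin R))).card := Finset.card_le_card hsub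
    _ ≤ (T ×ˢ Tᶜ).card := Finset.card_image_le
    _ = T.card * (R - T.card) := by rw [Finset.card_product, Finset.card_compl, Fintype.card_fin]

lemma TWO_upper (R : ℕ) (hR : 2 ≤ R) : ∃ μ : Finset (Fin R) → ℝ, Strat R 2 μ ∧ ValLe 1 ((R : ℝ) / (2 * (R - 1))) μ := by
  have hR' : (2 : ℝ) ≤ R := by exact_mod_cast hR
  have hch : ((R.choose 2 : ℕ) : ℝ) = R * (R - 1) / 2 := Nat.cast_choose_two ℝ R
  have hpos : (0 : ℝ) < R.choose 2 := by
    rw [hch]
    have : (0 : ℝ) < R * (R - 1) := mul_pos (by linarith) (by linarith)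
    linarith
  refine ⟨fun K => if K.card = 2 then 1 / (R.choose 2 : ℝ) else 0, ⟨?_, ?_, ?_⟩, ?_⟩
  · intro K
    show (0 : ℝ) ≤ if K.card = 2 then 1 / (R.choose 2 : ℝ) else 0
    split_ifs
    · positivity
    · exact le_refl _
  · intro K hK
    have : K.card = 2 := by
      by_contra h
      exact hK (if_neg h)
    omega
  · rw [← Finset.sum_filter, Finset.sum_const, nsmul_eq_mul]
    have : (Finset.univ.filter fun K : Finset (Fin R) => K.card = 2).card = R.choose 2 := by
      have h1 : (Finset.univ.filter fun K : Finset (Fin R) => K.card = 2) = Finset.powersetCard 2 Finset.univ := by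
        ext K
        simp [Finset.mem_powersetCard]
      rw [h1, Finset.card_powersetCard, Finset.card_univ, Fintype.card_fin]
    rw [this]
    field_simp
  · intro T
    have h1 : (∑ K with Hit 1 T K, if K.card = 2 then 1 / (R.choose 2 : ℝ) else 0) =
        ((Finset.univ.filter fun K : Finset (Fin R) => (T ∩ K).card = 1 ∧ K.card = 2).card : ℝ) * (1 / (R.choose 2 : ℝ)) := by
      rw [← Finset.sum_filter, Finset.sum_const, nsmul_eq_mul, Finset.filter_filter]
      congr 3
      ext K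
      simp [TWO_hit_iff]
    show (∑ K with Hit 1 T K, if K.card = 2 then 1 / (R.choose 2 : ℝ) else 0) ≤ _
    rw [h1]
    have hT : T.card ≤ R := by
      have := Finset.card_le_univ T
      rwa [Fintype.card_fin] at this
    have h2 : ((Finset.univ.filter fun K : Finset (Fin R) => (T ∩ K).card = 1 ∧ K.card = 2).card : ℝ) ≤ (R : ℝ) ^ 2 / 4 := by
      have h3 : ((Finset.univ.filter fun K : Finset (Fin R) => (T ∩ K).card = 1 ∧ K.card = 2).card : ℝ) ≤
          (T.card : ℝ) * ((R : ℝ) - T.card) := by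
        have := TWO_count T
        have h4 : ((Finset.univ.filter fun K : Finset (Fin R) => (T ∩ K).card = 1 ∧ K.card = 2).card : ℝ) ≤
            ((T.card * (R - T.card) : ℕ) : ℝ) := by exact_mod_cast this
        rwa [Nat.cast_mul, Nat.cast_sub hT] at h4
      nlinarith [sq_nonneg ((R : ℝ) - 2 * T.card)]
    have h5 : (R : ℝ) / (2 * (R - 1)) = (R : ℝ) ^ 2 / 4 * (1 / (R.choose 2 : ℝ)) := by
      rw [hch]
      have ha : (R : ℝ) ≠ 0 := by linarith
      have hb : (R : ℝ) - 1 ≠ 0 := by linarith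
      field_simp
      norm_num
    rw [h5]
    exact mul_le_mul_of_nonneg_right h2 (by positivity)

lemma TWO_lower (hPRM : PRM_stmt) (R : ℕ) (q : ℝ) (μ : Finset (Fin R) → ℝ) (hS : Strat R 2 μ) (hV : ValLe 1 q μ) : 1 / 2 ≤ q := by
  set W : Finset (Fin R) → ℝ := fun T => (1 / 2 : ℝ) ^ T.card * (1 - 1 / 2) ^ (R - T.card) with hW
  have hW0 : ∀ T, 0 ≤ W T := by
    intro T
    show 0 ≤ (1 / 2 : ℝ) ^ T.card * (1 - 1 / 2) ^ (R - T.card)
    exact mul_nonneg (pow_nonneg (by norm_num) _) (pow_nonneg (by norm_num) _)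
  have hW1 : ∑ T, W T = 1 := (hPRM R ∅ (1 / 2)).1
  have h1 : ∑ T, W T * ∑ K with Hit 1 T K, μ K ≤ q := by
    calc ∑ T, W T * ∑ K with Hit 1 T K, μ K ≤ ∑ T, W T * q := Finset.sum_le_sum fun T _ => mul_le_mul_of_nonneg_left (hV T) (hW0 T)
      _ = q := by rw [← Finset.sum_mul, hW1, one_mul]
  have h2 : ∑ T, W T * ∑ K with Hit 1 T K, μ K = ∑ K, μ K * ∑ T, (if (T ∩ K).card = 1 then W T else 0) := by
    calc ∑ T, W T * ∑ K with Hit 1 T K, μ K = ∑ T, ∑ K, (if (T ∩ K).card = 1 then W T * μ K else 0) := by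
          refine Finset.sum_congr rfl fun T _ => ?_
          rw [Finset.mul_sum, Finset.sum_filter]
          refine Finset.sum_congr rfl fun K _ => ?_
          by_cases h : (T ∩ K).card = 1
          · rw [if_pos ((TWO_hit_iff T K).mpr h), if_pos h]
          · rw [if_neg (fun h' => h ((TWO_hit_iff T K).mp h')), if_neg h]
      _ = ∑ K, ∑ T, (if (T ∩ K).card = 1 then W T * μ K else 0) := Finset.sum_comm
      _ = ∑ K, μ K * ∑ T, (if (T ∩ K).card = 1 then W T else 0) := by
          refine Finset.sum_congr rfl fun K _ => ?_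
          rw [Finset.mul_sum]
          refine Finset.sum_congr rfl fun T _ => ?_
          by_cases h : (T ∩ K).card = 1
          · rw [if_pos h, if_pos h, mul_comm]
          · rw [if_neg h, if_neg h, mul_zero]
  have h3 : ∀ K, μ K * ∑ T, (if (T ∩ K).card = 1 then W T else 0) = μ K * (1 / 2) := by
    intro K
    by_cases h0 : μ K = 0
    · rw [h0, zero_mul, zero_mul]
    · have hK := hS.supp K h0
      have h4 := (hPRM R K (1 / 2)).2 1
      have h5 : (∑ T : Finset (Fin R), if (T ∩ K).card = 1 then W T else 0) = 1 / 2 := by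
        rw [hW]
        show (∑ T : Finset (Fin R), if (T ∩ K).card = 1 then (1 / 2 : ℝ) ^ T.card * (1 - 1 / 2) ^ (R - T.card) else 0) = 1 / 2
        rw [h4, Nat.choose_one_right]
        have h6 : K.card = 1 ∨ K.card = 2 := by omega
        rcases h6 with h6 | h6
        · rw [h6]; norm_num
        · rw [h6]; norm_num
      rw [h5]
  have h7 : ∑ K, μ K * ∑ T, (if (T ∩ K).card = 1 then W T else 0) = 1 / 2 := by
    rw [Finset.sum_congr rfl fun K _ => h3 K, ← Finset.sum_mul, hS.sum, one_mul]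
  rw [h2, h7] at h1
  exact h1

theorem TWO_proof (hPRM : PRM_stmt) (hTHB : THB_stmt) : TWO_stmt := by
  obtain ⟨hA, hB, -⟩ := hTHB 2 1 (by norm_num) (le_refl 1)
  refine le_antisymm ?_ ?_
  · refine le_of_forall_pos_le_add fun e he => ?_
    obtain ⟨N, hN⟩ := exists_nat_gt (1 / (2 * e))
    obtain ⟨μ, hS, hV⟩ := TWO_upper (N + 2) (by omega)
    refine (hA _ _ μ hS hV).trans ?_
    have hN0 : (0 : ℝ) ≤ N := Nat.cast_nonneg N
    have h1 : ((N + 2 : ℕ) : ℝ) = N + 2 := by push_cast; ring
    rw [h1]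
    have h2 : (0 : ℝ) < 2 * ((N : ℝ) + 2 - 1) := by linarith
    rw [div_le_iff₀ h2]
    have h3 : 1 < N * (2 * e) := by
      rwa [div_lt_iff₀ (by linarith)] at hN
    nlinarith
  · by_contra h
    rw [not_le] at h
    obtain ⟨q, hq1, hq2⟩ := exists_between h
    obtain ⟨R, μ, hS, hV⟩ := hB q hq1
    have := TWO_lower hPRM R q μ hS hV
    linarith

end Pool.Agent.ISO
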